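import Pool.Agent.R474.AG.Fin
import Pool.Agent.R474.Build

/-!
Automata which predict the digits of an algebraic number.
-/

set_option autoImplicit false

open Finset

namespace Pool.Agent.R474.AG

open Pool.Agent.H820R3.DG

/-- A finite automaton is right forever if it is right `|Q|` times in a row, on constant input. -/
lemma finite_iterate {Q : Type*} [Fintype Q] (F : Q → Q) (P : Q → Prop) (x : Q)
    (h : ∀ i < Fintype.card Q, P (F^[i] x)) : ∀ i, P (F^[i] x) := by
  obtain ⟨i, j, hij, hj, heq⟩ : ∃ i j, i < j ∧ j ≤ Fintype.card Q ∧ F^[i] x = F^[j] x := by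
    have hcard : Fintype.card Q < Fintype.card (Fin (Fintype.card Q + 1)) := by simp
    obtain ⟨a, b, hab, heq⟩ := Fintype.exists_ne_map_eq_of_card_lt
      (fun a : Fin (Fintype.card Q + 1) => F^[(a : ℕ)] x) hcard
    rcases lt_or_gt_of_ne hab with h1 | h1
    · exact ⟨a, b, h1, by omega, heq⟩
    · exact ⟨b, a, h1, by omega, heq.symm⟩
  intro t
  induction t using Nat.strong_induction_on with
  | _ t ih =>
    rcases lt_or_ge t (Fintype.card Q) with h1 | h1
    · exact h t h1
    · have h2 : F^[t] x = F^[t - j + i] x := by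
        have h3 : t = t - j + j := by omega
        conv_lhs => rw [h3]
        rw [Function.iterate_add_apply, ← heq, ← Function.iterate_add_apply]
      rw [h2]
      exact ih _ (by omega)

/-- the covering inequality for one digit implies the inequality for automata -/
theorem auto_general {Q : Type*} (dig : ℕ → ℤ) (e : ℤ) (c0 : ℝ) (hc0 : 0 ≤ c0) (D1 n : ℕ)
    (hcover : ∀ (K : ℕ) (u w : ℕ → ℕ), (∀ i < K, u i ≤ w i) →
      (∀ k ∈ Icc 1 n, dig k ≠ e → ∃ i < K, u i ≤ k ∧ k ≤ w i) →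
      c0 * n ≤ (K : ℝ) ^ D1 * ((∑ i ∈ range K, (w i + 1 - u i) : ℕ) : ℝ))
    (step : Q → ℤ → Q) (out : Q → ℤ)
    (s : ℕ → Q) (hs : ∀ k, s (k + 1) = step (s k) (dig (k + 1))) (l : ℕ) (hl : 1 ≤ l)
    (hQ : ∀ x : Q, (∀ i < l, out ((fun y => step y e)^[i] x) = e) →
      ∀ i, out ((fun y => step y e)^[i] x) = e) :
    c0 / 2 * n ≤ l * ((((Icc 1 n).filter (fun k => dig k ≠ out (s (k - 1)))).card : ℝ) + 1) ^ D1 *
      (((Icc 1 n).filter (fun k => dig k ≠ e)).card : ℝ) := by
  classical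
  set N := ((Icc 1 n).filter (fun k => dig k ≠ e)).card with hNdef
  set E := ((Icc 1 n).filter (fun k => dig k ≠ out (s (k - 1)))).card with hE
  have hn0 : (0 : ℝ) ≤ n := Nat.cast_nonneg _
  have hlR : (1 : ℝ) ≤ l := by exact_mod_cast hl
  -- the covering by single positions
  have hsq : c0 * n ≤ (N : ℝ) ^ D1 * N := by
    obtain ⟨K, u, w, hK, huw, -, hcov, hsum, -⟩ := build (fun k => dig k ≠ e)
      (fun k => dig k ≠ e) 1 n (fun z _ _ hS hB => absurd hS hB) le_rfl n le_rfl
    have h1 := hcover K u w huw (fun k hk h => by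
      obtain ⟨hk1, hk2⟩ := mem_Icc.1 hk
      exact hcov k hk1 hk2 h)
    have hK' : K = N := hK
    have hW : ∑ i ∈ range K, (w i + 1 - u i) ≤ N := by
      refine hsum.trans ((Nat.add_le_add (le_of_eq ?_) (le_of_eq ?_)).trans
        (le_of_eq (Nat.add_zero _)))
      · rw [Nat.one_mul]
      · rw [card_eq_zero, filter_eq_empty_iff]
        intro k _ h
        exact h.2 h.1
    have hWR : ((∑ i ∈ range K, (w i + 1 - u i) : ℕ) : ℝ) ≤ N := by exact_mod_cast hW
    rw [hK'] at h1 hWR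
    exact h1.trans (mul_le_mul_of_nonneg_left hWR (by positivity))
  obtain ⟨K, u, w, hK, huw, -, hcov, hsum, -⟩ := build (fun k => dig k ≠ e)
    (fun k => k = 1 ∨ dig k ≠ out (s (k - 1))) l n
    (fun z hz1 hz2 hS hB => by
      simp only [not_or, not_not] at hB
      obtain ⟨hB1, hB2⟩ := hB
      by_contra hcon
      push Not at hcon
      have hzl : l + 1 < z := by
        by_contra hzl
        exact (hcon 1 le_rfl (by omega) (by omega)).2.1 rfl
      -- the state before position `z - l`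
      have hst : ∀ i ≤ l, s (z - l - 1 + i) = (fun y => step y e)^[i] (s (z - l - 1)) := by
        intro i
        induction i with
        | zero => intro _; simp
        | succ i ih =>
          intro hi
          rw [Function.iterate_succ_apply', ← ih (by omega), ← Nat.add_assoc, hs]
          congr 1
          exact (hcon _ (by omega) (by omega) (by omega)).1
      have hpr : ∀ i < l, out ((fun y => step y e)^[i] (s (z - l - 1))) = e := by
        intro i hi
        rw [← hst i hi.le]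
        obtain ⟨h1, h2, h3⟩ := hcon (z - l + i) (by omega) (by omega) (by omega)
        have h4 : z - l + i - 1 = z - l - 1 + i := by omega
        rw [h4] at h3
        rw [← h3]
        exact h1
      have h5 := hQ _ hpr l
      rw [← hst l le_rfl] at h5
      have h6 : z - l - 1 + l = z - 1 := by omega
      rw [h6, ← hB2] at h5
      exact hS h5) hl n le_rfl
  have h1 := hcover K u w huw (fun k hk h => by
    obtain ⟨hk1, hk2⟩ := mem_Icc.1 hk
    exact hcov k hk1 hk2 h)
  have hKE : K ≤ E + 1 := by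
    rw [hK]
    refine (card_le_card (t := insert 1 ((Icc 1 n).filter (fun k =>
      dig k ≠ out (s (k - 1))))) ?_).trans (card_insert_le _ _)
    intro k hk
    rw [mem_filter] at hk
    rw [mem_insert, mem_filter]
    rcases hk.2 with h | h
    · exact Or.inl h
    · exact Or.inr ⟨hk.1, h⟩
  have hrest : ((Icc 1 n).filter (fun k => (k = 1 ∨ dig k ≠ out (s (k - 1))) ∧
      ¬ dig k ≠ e)).card ≤ K := by
    rw [hK]
    refine card_le_card ?_
    intro k hk
    rw [mem_filter] at hk ⊢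
    exact ⟨hk.1, hk.2.1⟩
  have hsum2 : ∑ i ∈ range K, (w i + 1 - u i) ≤ l * N +
      ((Icc 1 n).filter (fun k => (k = 1 ∨ dig k ≠ out (s (k - 1))) ∧ ¬ dig k ≠ e)).card := by
    convert hsum
  have hW : ∑ i ∈ range K, (w i + 1 - u i) ≤ l * N + (E + 1) := by omega
  have hKR : (K : ℝ) ≤ E + 1 := by exact_mod_cast hKE
  have hWR : ((∑ i ∈ range K, (w i + 1 - u i) : ℕ) : ℝ) ≤ l * N + (E + 1) := by exact_mod_cast hW
  have hP0 : (0 : ℝ) ≤ ((E : ℝ) + 1) ^ D1 := by positivity
  have hN0 : (0 : ℝ) ≤ N := Nat.cast_nonneg _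
  rcases le_total (E + 1) N with h | h
  · have hR : (E : ℝ) + 1 ≤ N := by exact_mod_cast h
    have h2 : ((∑ i ∈ range K, (w i + 1 - u i) : ℕ) : ℝ) ≤ 2 * (l * N) := by nlinarith
    have h3 : c0 * n ≤ ((E : ℝ) + 1) ^ D1 * (2 * (l * N)) :=
      h1.trans (mul_le_mul (pow_le_pow_left₀ (Nat.cast_nonneg _) hKR _) h2 (Nat.cast_nonneg _) hP0)
    calc c0 / 2 * n = c0 * n / 2 := by ring
      _ ≤ ((E : ℝ) + 1) ^ D1 * (2 * (l * N)) / 2 := by gcongr
      _ = _ := by ring
  · have hR : (N : ℝ) ≤ E + 1 := by exact_mod_cast h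
    have h2 : (N : ℝ) ^ D1 * N ≤ ((E : ℝ) + 1) ^ D1 * N := by gcongr
    have h3 : 0 ≤ ((E : ℝ) + 1) ^ D1 * N := by positivity
    have h4 : 0 ≤ c0 * n := by positivity
    calc c0 / 2 * n ≤ c0 * n := by linarith
      _ ≤ ((E : ℝ) + 1) ^ D1 * N := hsq.trans h2
      _ ≤ l * (((E : ℝ) + 1) ^ D1 * N) := le_mul_of_one_le_left h3 hlR
      _ = _ := by ring

/-- finite automata -/
theorem auto_finite {Q : Type*} [Finite Q] (dig : ℕ → ℤ) (e : ℤ) (c0 : ℝ) (hc0 : 0 ≤ c0) (D1 n : ℕ)
    (hcover : ∀ (K : ℕ) (u w : ℕ → ℕ), (∀ i < K, u i ≤ w i) →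
      (∀ k ∈ Icc 1 n, dig k ≠ e → ∃ i < K, u i ≤ k ∧ k ≤ w i) →
      c0 * n ≤ (K : ℝ) ^ D1 * ((∑ i ∈ range K, (w i + 1 - u i) : ℕ) : ℝ))
    (step : Q → ℤ → Q) (out : Q → ℤ)
    (s : ℕ → Q) (hs : ∀ k, s (k + 1) = step (s k) (dig (k + 1))) :
    c0 / 2 * n ≤ Nat.card Q *
      ((((Icc 1 n).filter (fun k => dig k ≠ out (s (k - 1)))).card : ℝ) + 1) ^ D1 *
      (((Icc 1 n).filter (fun k => dig k ≠ e)).card : ℝ) := by
  have : Fintype Q := Fintype.ofFinite Q
  rw [Nat.card_eq_fintype_card]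
  exact auto_general dig e c0 hc0 D1 n hcover step out s hs _ (Fintype.card_pos_iff.2 ⟨s 0⟩)
    (fun x hx => finite_iterate (fun y => step y e) (fun y => out y = e) x hx)

end Pool.Agent.R474.AG
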