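import Pool.Agent.R474.AG.Live

/-!
Positions outside of a union of few intervals with small quotient of tails.
-/

set_option autoImplicit false

open Finset

namespace Pool.Agent.R474.AG

open Pool.Agent.H394R2.Ones Pool.Agent.H820R3.DG

open Classical in
/-- counting near the ends of the gaps of `P` which are not covered by the intervals -/
lemma sparse (P Bd : ℕ → Prop) {ι : Type} [Fintype ι] (α β : ι → ℕ) (n a X j0 : ℕ)
    (δ : ℝ) (hδ : 0 ≤ δ) (hP0 : P 0) (hPQ : ∀ m, m < n → P m → ∃ f, α f ≤ m ∧ m ≤ β f)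
    (hj0 : n ≤ j0) (hj0X : j0 ≤ X) (hj0P : P j0) (hj0' : ∀ k, n ≤ k → k < j0 → ¬ P k)
    (h : ∀ m j j' : ℕ, j ≤ m → m < j' → j' ≤ X → P j → P j' →
      (∀ k, j < k → k < j' → ¬ P k) →
      Bd m → m < j + a ∨ (j' : ℝ) ≤ m + a + δ * ((j' : ℝ) - j)) :
    (((range n).filter (fun m => 1 ≤ m ∧ (m < n ∧ (¬ ∃ f, α f ≤ m ∧ m ≤ β f) ∧ Bd m))).card : ℝ) ≤
        2 * a * (2 * Fintype.card ι + 1) + 2 * a + δ * j0 := by
  classical
  set Lf : ℕ → Prop := fun k => k < n ∧ P k ∧ ∃ m, (¬ ∃ f, α f ≤ m ∧ m ≤ β f) ∧ k < m ∧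
    ∀ x, k < x → x ≤ m → ¬ P x with hLf
  set Rt : ℕ → Prop := fun k => k < n ∧ P k ∧ ∃ m, (¬ ∃ f, α f ≤ m ∧ m ≤ β f) ∧ m < k ∧
    ∀ x, m ≤ x → x < k → ¬ P x with hRt
  set P' : ℕ → Prop := fun k => k = 0 ∨ k = j0 ∨ Lf k ∨ Rt k with hP'
  have hcL : ((range n).filter Lf).card ≤ Fintype.card ι := by
    have hex : ∀ k : ℕ, ∃ f : Option ι, k ∈ (range n).filter Lf → ∃ g, f = some g ∧ α g ≤ k ∧ k ≤ β g := by
      intro k
      by_cases hk : k ∈ (range n).filter Lf
      · obtain ⟨-, hk1, hk2, -⟩ := mem_filter.1 hk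
        obtain ⟨g, hg1, hg2⟩ := hPQ k hk1 hk2
        exact ⟨some g, fun _ => ⟨g, rfl, hg1, hg2⟩⟩
      · exact ⟨none, fun h => absurd h hk⟩
    choose F hF using hex
    have h1 : ((range n).filter Lf).card ≤ ((univ : Finset ι).map Function.Embedding.some).card := by
      refine card_le_card_of_injOn F ?_ ?_
      · intro k hk
        obtain ⟨g, hg, -, -⟩ := hF k hk
        rw [hg]
        simp
      · have key : ∀ k1 k2, k1 < k2 → k1 ∈ (range n).filter Lf → k2 ∈ (range n).filter Lf →
            F k1 ≠ F k2 := by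
          intro k1 k2 hlt h1 h2 heq
          obtain ⟨g1, hg1, h11, h12⟩ := hF k1 h1
          obtain ⟨g2, hg2, h21, h22⟩ := hF k2 h2
          have hgg : g1 = g2 := by
            rw [hg1, hg2] at heq
            exact Option.some.inj heq
          subst hgg
          obtain ⟨-, -, -, m, hm1, hm2, hm3⟩ := mem_filter.1 h1
          obtain ⟨-, -, hP2, -⟩ := mem_filter.1 h2
          have h3 : m < k2 := by
            by_contra hcon
            exact hm3 k2 hlt (by omega) hP2
          exact hm1 ⟨g1, by omega, by omega⟩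
        intro k1 h1 k2 h2 heq
        rcases lt_trichotomy k1 k2 with h3 | h3 | h3
        · exact absurd heq (key k1 k2 h3 h1 h2)
        · exact h3
        · exact absurd heq.symm (key k2 k1 h3 h2 h1)
    rwa [card_map, card_univ] at h1
  have hcR : ((range n).filter Rt).card ≤ Fintype.card ι := by
    have hex : ∀ k : ℕ, ∃ f : Option ι, k ∈ (range n).filter Rt → ∃ g, f = some g ∧ α g ≤ k ∧ k ≤ β g := by
      intro k
      by_cases hk : k ∈ (range n).filter Rt
      · obtain ⟨-, hk1, hk2, -⟩ := mem_filter.1 hk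
        obtain ⟨g, hg1, hg2⟩ := hPQ k hk1 hk2
        exact ⟨some g, fun _ => ⟨g, rfl, hg1, hg2⟩⟩
      · exact ⟨none, fun h => absurd h hk⟩
    choose F hF using hex
    have h1 : ((range n).filter Rt).card ≤ ((univ : Finset ι).map Function.Embedding.some).card := by
      refine card_le_card_of_injOn F ?_ ?_
      · intro k hk
        obtain ⟨g, hg, -, -⟩ := hF k hk
        rw [hg]
        simp
      · have key : ∀ k1 k2, k1 < k2 → k1 ∈ (range n).filter Rt → k2 ∈ (range n).filter Rt →
            F k1 ≠ F k2 := by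
          intro k1 k2 hlt h1 h2 heq
          obtain ⟨g1, hg1, h11, h12⟩ := hF k1 h1
          obtain ⟨g2, hg2, h21, h22⟩ := hF k2 h2
          have hgg : g1 = g2 := by
            rw [hg1, hg2] at heq
            exact Option.some.inj heq
          subst hgg
          obtain ⟨-, -, hP1, -⟩ := mem_filter.1 h1
          obtain ⟨-, -, -, m, hm1, hm2, hm3⟩ := mem_filter.1 h2
          have h3 : k1 < m := by
            by_contra hcon
            exact hm3 k1 (by omega) hlt hP1
          exact hm1 ⟨g1, by omega, by omega⟩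
        intro k1 h1 k2 h2 heq
        rcases lt_trichotomy k1 k2 with h3 | h3 | h3
        · exact absurd heq (key k1 k2 h3 h1 h2)
        · exact h3
        · exact absurd heq.symm (key k2 k1 h3 h2 h1)
    rwa [card_map, card_univ] at h1
  have hcount : ((range n).filter P').card ≤ 2 * Fintype.card ι + 1 := by
    have hsub : (range n).filter P' ⊆ ({0} ∪ (range n).filter Lf) ∪ (range n).filter Rt := by
      intro k hk
      obtain ⟨hk1, hk2⟩ := mem_filter.1 hk
      have hk3 := mem_range.1 hk1
      rw [mem_union, mem_union, mem_singleton]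
      rcases hk2 with h1 | h1 | h1 | h1
      · exact Or.inl (Or.inl h1)
      · omega
      · exact Or.inl (Or.inr (mem_filter.2 ⟨hk1, h1⟩))
      · exact Or.inr (mem_filter.2 ⟨hk1, h1⟩)
    have h1 := (card_le_card hsub).trans ((card_union_le _ _).trans
      (Nat.add_le_add_right (card_union_le _ _) _))
    rw [card_singleton] at h1
    omega
  have hmain := count_blocks2 P' (fun m => m < n ∧ (¬ ∃ f, α f ≤ m ∧ m ≤ β f) ∧ Bd m) 1 a X δ hδ
    ⟨0, one_pos, Or.inl rfl⟩ (by
      intro m j j' hm1 hjm hmj' hj'X hPj hPj' hz hBd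
      obtain ⟨hmn, hnQ, hB⟩ := hBd
      have hnP : ¬ P m := fun hPm => hnQ (hPQ m hmn hPm)
      -- the last element of `P` before `m`
      set k := Nat.findGreatest P m with hk
      have hk1 : P k := Nat.findGreatest_spec (Nat.zero_le m) hP0
      have hk2 : k ≤ m := Nat.findGreatest_le m
      have hk3 : ∀ x, k < x → x ≤ m → ¬ P x := fun x hx1 hx2 => Nat.findGreatest_is_greatest hx1 hx2
      have hkm : k < m := lt_of_le_of_ne hk2 (fun h => hnP (h ▸ hk1))
      have hk4 : P' k := Or.inr (Or.inr (Or.inl ⟨by omega, hk1, m, hnQ, hkm, hk3⟩))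
      have hkj : k = j := by
        rcases lt_trichotomy k j with h1 | h1 | h1
        · exfalso
          have h2 := hk3 j h1 hjm
          rcases hPj with h3 | h3 | h3 | h3
          · omega
          · omega
          · exact h2 h3.2.1
          · exact h2 h3.2.1
        · exact h1
        · exact absurd hk4 (hz k h1 (by omega))
      -- the first element of `P` after `m`
      have hex : ∃ x, m < x ∧ P x := ⟨j0, by omega, hj0P⟩
      set k' := Nat.find hex with hk'
      obtain ⟨hk'1, hk'2⟩ := Nat.find_spec hex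
      rw [← hk'] at hk'1 hk'2
      have hk'3 : ∀ x, m < x → x < k' → ¬ P x := fun x hx1 hx2 hx3 =>
        Nat.find_min hex hx2 ⟨hx1, hx3⟩
      have hk'4 : k' ≤ j0 := Nat.find_min' hex ⟨by omega, hj0P⟩
      have hk'5 : P' k' := by
        rcases Nat.lt_or_ge k' n with h1 | h1
        · refine Or.inr (Or.inr (Or.inr ⟨h1, hk'2, m, hnQ, hk'1, fun x hx1 hx2 => ?_⟩))
          rcases Nat.eq_or_lt_of_le hx1 with h2 | h2
          · exact h2 ▸ hnP
          · exact hk'3 x h2 hx2
        · refine Or.inr (Or.inl ?_)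
          by_contra hne
          exact hj0' k' h1 (by omega) hk'2
      have hkj' : k' = j' := by
        rcases lt_trichotomy k' j' with h1 | h1 | h1
        · exact absurd hk'5 (hz k' (by omega) h1)
        · exact h1
        · exfalso
          have h2 := hk'3 j' hmj' h1
          rcases hPj' with h3 | h3 | h3 | h3
          · omega
          · omega
          · exact h2 h3.2.1
          · exact h2 h3.2.1
      rw [← hkj, ← hkj'] 
      refine h m k k' hk2 hk'1 (hk'4.trans hj0X) hk1 hk'2 (fun x hx1 hx2 => ?_) hB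
      rcases Nat.lt_or_ge m x with h1 | h1
      · exact hk'3 x h1 hx2
      · exact hk3 x hx1 h1) n j0 hj0 hj0X (Or.inr (Or.inl rfl)) (by
      intro k hk1 hk2 hk3
      rcases hk3 with h1 | h1 | h1 | h1
      · subst h1
        exact hj0' 0 hk1 hk2 hP0
      · omega
      · exact absurd h1.1 (by omega)
      · exact absurd h1.1 (by omega))
  have hcount' : (((range n).filter P').card : ℝ) ≤ 2 * Fintype.card ι + 1 := by
    exact_mod_cast hcount
  have ha : (0 : ℝ) ≤ 2 * a := by positivity
  have := mul_le_mul_of_nonneg_left hcount' ha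
  linarith

end Pool.Agent.R474.AG
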