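import Pool.Agent.R474.AG.Bad
import Pool.Agent.H820R3.DG.Asym

/-!
The covering inequality for `y` in `(0, 1)`.
-/

set_option autoImplicit false

open Finset

namespace Pool.Agent.R474.AG

open Pool.Agent.H394R2.Ones Pool.Agent.H820R3.DG

section
variable {b : ℕ} {y : ℝ}

lemma xx_le (hb : 2 ≤ b) (i : ℕ) : xx b y i ≤ b := by
  unfold xx
  split_ifs
  · omega
  · unfold x; exact (Nat.mod_lt _ (by omega)).le

lemma KK_le_cover (hb : 2 ≤ b) (n K : ℕ) (u w : Fin K → ℕ) (huw : ∀ i, u i ≤ w i)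
    (hcov : ∀ k, k ≤ n → 1 ≤ xx b y k → ∃ i, u i ≤ k ∧ k ≤ w i) :
    KK b y n ≤ b * ∑ j, (w j + 1 - u j) := by
  classical
  have h1 : KK b y n ≤ b * ((range (n + 1)).filter (fun m => InQ u w 1 m)).card := by
    unfold KK
    rw [card_filter, mul_sum]
    refine sum_le_sum fun i hi => ?_
    split_ifs with h
    · rw [mul_one]; exact xx_le hb i
    · rw [mul_zero, Nat.le_zero]
      by_contra hne
      obtain ⟨j, hj1, hj2⟩ := hcov i (by have := mem_range.1 hi; omega) (by omega)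
      exact h ⟨fun _ => j, by simpa using hj1, by simpa using hj2⟩
  have h2 := card_inQ u w huw 0 (n + 1)
  simp only [zero_add, pow_zero, mul_one, one_mul] at h2
  exact h1.trans (Nat.mul_le_mul_left _ h2)

theorem cover_log (hb : 2 ≤ b) (hy0 : 0 < y) (hy1 : y < 1) (halg : IsAlgebraic ℚ y)
    (hirr : Irrational y) (d : ℕ) (c : ℕ → ℤ)
    (hP : ∑ k ∈ range (d + 2 + 1), (c k : ℝ) * (1 + y) ^ k = 0) (hc : 0 < c (d + 2)) :
    ∃ C : ℝ, 0 < C ∧ ∀ (n K : ℕ) (u w : Fin K → ℕ), (∀ i, u i ≤ w i) →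
      (∀ k, k ≤ n → 1 ≤ xx b y k → ∃ i, u i ≤ k ∧ k ≤ w i) →
      (n : ℝ) ≤ C * (1 + Real.log ((n : ℝ) + 1)) * (K : ℝ) ^ (d + 1) +
        C * ((K : ℝ) ^ (d + 1) * ((∑ j, (w j + 1 - u j) : ℕ) : ℝ)) := by
  classical
  have hb2 : (2 : ℝ) ≤ b := by exact_mod_cast hb
  set c' : ℝ := ∑ k ∈ range (d + 2), |(c k : ℝ)| with hc'
  have hc'0 : 0 ≤ c' := sum_nonneg fun _ _ => abs_nonneg _
  have hcD : (0 : ℝ) < c (d + 2) := by exact_mod_cast hc
  set c2 : ℝ := 1 / (c (d + 2) + c') with hc2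
  have hc20 : 0 < c2 := by positivity
  obtain ⟨C1, hC1, hbad⟩ := bad_card hb hy0 hy1 halg hirr d c' hc'0
  set C3 : ℝ := (3 ^ (d + 2) + 1) * (b : ℝ) ^ (d + 2) / c2 with hC3
  have hC30 : 0 ≤ C3 := by positivity
  refine ⟨4 * C1 + 2 * (6 * ((d : ℝ) + 2) + C3) + 1, by positivity, ?_⟩
  intro n K u w huw hcov
  have hn0 : (0 : ℝ) ≤ n := Nat.cast_nonneg _
  have hℓ : 0 ≤ Real.log ((n : ℝ) + 1) := Real.log_nonneg (by linarith)
  set ℓ := Real.log ((n : ℝ) + 1) with hℓdef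
  set W : ℕ := ∑ j, (w j + 1 - u j) with hW
  obtain ⟨i0, -, -⟩ := hcov 0 (Nat.zero_le _) (by rw [xx_zero])
  have hK1 : 1 ≤ K := by have := i0.2; omega
  have hKW : K ≤ W := by
    have h1 : ∑ j : Fin K, 1 ≤ ∑ j, (w j + 1 - u j) := sum_le_sum fun j _ => by
      have := huw j
      omega
    simpa using h1
  have hKK := KK_le_cover hb n K u w huw hcov
  rw [← hW] at hKK
  set M : ℕ := (d + 1) * (W / K + 1) with hM
  have hsupp : ∀ D m, m ≤ n → 1 ≤ rr (xx b y) D m → InQ u w D m := fun D m h1 h2 =>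
    supp_inQ u w (xx b y) n hcov D m h1 h2
  -- the live positions
  have hlive := live_card hb hy0 hy1 (d + 1) c2 hc20 n M
    ((d + 1 + 1) * K ^ (d + 1) * W + K ^ (d + 1 + 1) * M) (by
      refine le_trans (card_le_card ?_) (card_near u w huw (d + 1) M n)
      intro m hm
      obtain ⟨h1, k, h2, h3, h4, h5⟩ := mem_filter.1 hm
      exact mem_filter.2 ⟨h1, k, h2, h3, hsupp _ k h4 h5⟩)
  have hbad' := hbad n (Fin (d + 1) → Fin K) (fun f => ∑ i, u (f i)) (fun f => ∑ i, w (f i))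
    (fun m h1 h2 => hsupp _ m h1 h2)
  have hQ := card_inQ u w huw d n
  rw [← hW] at hQ
  rw [Fintype.card_fun, Fintype.card_fin, Fintype.card_fin] at hbad'
  have hall : n ≤ ((range n).filter (fun m => InQ u w (d + 1) m)).card +
      ((range n).filter (fun m => (¬ ∃ f : Fin (d + 1) → Fin K,
        (fun f : Fin (d + 1) → Fin K => ∑ i, u (f i)) f ≤ m ∧
        m ≤ (fun f : Fin (d + 1) → Fin K => ∑ i, w (f i)) f) ∧
        TT b y (d + 2) m ≤ c' * TT b y (d + 1) m)).card +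
      ((range n).filter (fun m => c2 ≤ TT b y (d + 1 + 1) m)).card := by
    have hsub : range n ⊆ (((range n).filter (fun m => InQ u w (d + 1) m)) ∪
      ((range n).filter (fun m => (¬ ∃ f : Fin (d + 1) → Fin K,
        (fun f : Fin (d + 1) → Fin K => ∑ i, u (f i)) f ≤ m ∧
        m ≤ (fun f : Fin (d + 1) → Fin K => ∑ i, w (f i)) f) ∧
        TT b y (d + 2) m ≤ c' * TT b y (d + 1) m))) ∪
      ((range n).filter (fun m => c2 ≤ TT b y (d + 1 + 1) m)) := by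
      intro m hm
      rw [mem_union, mem_union]
      by_cases h1 : InQ u w (d + 1) m
      · exact Or.inl (Or.inl (mem_filter.2 ⟨hm, h1⟩))
      · by_cases h2 : TT b y (d + 2) m ≤ c' * TT b y (d + 1) m
        · exact Or.inl (Or.inr (mem_filter.2 ⟨hm, h1, h2⟩))
        · exact Or.inr (mem_filter.2 ⟨hm, good_live hb hy0 hy1 d c hP hc m h2⟩)
    have h1 := (card_le_card hsub).trans ((card_union_le _ _).trans
      (Nat.add_le_add_right (card_union_le _ _) _))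
    rwa [card_range] at h1
  -- numerics
  have hKR : (1 : ℝ) ≤ K := by exact_mod_cast hK1
  have hWR : (1 : ℝ) ≤ W := by exact_mod_cast hK1.trans hKW
  have hKWR : (K : ℝ) ≤ W := by exact_mod_cast hKW
  set P : ℝ := (K : ℝ) ^ (d + 1) with hPdef
  have hP1 : 1 ≤ P := one_le_pow₀ hKR
  have hq1 : W < K * (W / K + 1) := by
    have := Nat.lt_mul_div_succ W (show 0 < K by omega)
    simpa [Nat.succ_eq_add_one] using this
  have hq2 : K * (W / K) ≤ W := Nat.mul_div_le W K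
  -- `b ^ M K ^ (d + 1) ≥ W ^ (d + 1)`
  have hbM : (W : ℝ) ^ (d + 1) ≤ (b : ℝ) ^ M * P := by
    have h1 : (W : ℝ) ≤ K * ((W / K : ℕ) + 1) := by exact_mod_cast hq1.le
    have h2 : (((W / K : ℕ) : ℝ) + 1) ≤ (b : ℝ) ^ (W / K + 1) := by
      have h3 : W / K + 1 < 2 ^ (W / K + 1) := Nat.lt_two_pow_self
      have h4 : (((W / K : ℕ) : ℝ) + 1) ≤ (2 : ℝ) ^ (W / K + 1) := by exact_mod_cast h3.le
      exact h4.trans (pow_le_pow_left₀ (by norm_num) hb2 _)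
    calc (W : ℝ) ^ (d + 1) ≤ (K * ((W / K : ℕ) + 1)) ^ (d + 1) :=
          pow_le_pow_left₀ (by positivity) h1 _
      _ ≤ (K * (b : ℝ) ^ (W / K + 1)) ^ (d + 1) := by gcongr
      _ = (b : ℝ) ^ M * P := by rw [mul_pow, ← pow_mul, hM, mul_comm (d + 1)]; ring
  have hlast : (3 ^ (d + 1 + 1) + 1) * (KK b y n : ℝ) ^ (d + 1 + 1) / ((b : ℝ) ^ M * c2) ≤
      C3 * (P * W) := by
    have hKKR : (KK b y n : ℝ) ≤ b * W := by exact_mod_cast hKK
    have hbM0 : (0 : ℝ) < (b : ℝ) ^ M := by positivity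
    rw [div_le_iff₀ (by positivity)]
    have h1 : (KK b y n : ℝ) ^ (d + 1 + 1) ≤ (b * W) ^ (d + 1 + 1) := by gcongr
    have h2 : (b * (W : ℝ)) ^ (d + 1 + 1) ≤ (b : ℝ) ^ (d + 2) * (W * ((b : ℝ) ^ M * P)) := by
      rw [mul_pow, pow_succ (W : ℝ) (d + 1)]
      have : (W : ℝ) ^ (d + 1) * W ≤ (b : ℝ) ^ M * P * W := by gcongr
      calc (b : ℝ) ^ (d + 1 + 1) * ((W : ℝ) ^ (d + 1) * W) ≤ (b : ℝ) ^ (d + 1 + 1) * ((b : ℝ) ^ M * P * W) := by gcongr
        _ = _ := by ring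
    have h3 : C3 * (P * W) * ((b : ℝ) ^ M * c2) =
        (3 ^ (d + 1 + 1) + 1) * ((b : ℝ) ^ (d + 2) * (W * ((b : ℝ) ^ M * P))) := by
      have hne : c2 ≠ 0 := hc20.ne'
      rw [hC3, div_mul_eq_mul_div, div_mul_eq_mul_div, div_eq_iff hne]
      ring
    rw [h3]
    exact mul_le_mul_of_nonneg_left (h1.trans h2) (by positivity)
  have hKM : (K : ℝ) ^ (d + 1 + 1) * M ≤ 2 * (d + 2) * (P * W) := by
    have h1 : K * M ≤ (d + 1) * (2 * W) := by
      rw [hM]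
      calc K * ((d + 1) * (W / K + 1)) = (d + 1) * (K * (W / K) + K) := by ring
        _ ≤ (d + 1) * (2 * W) := Nat.mul_le_mul_left _ (by omega)
    have h2 : (K : ℝ) * M ≤ (d + 1) * (2 * W) := by exact_mod_cast h1
    calc (K : ℝ) ^ (d + 1 + 1) * M = P * (K * M) := by rw [hPdef]; ring
      _ ≤ P * ((d + 1) * (2 * W)) := by gcongr
      _ ≤ 2 * (d + 2) * (P * W) := by nlinarith [mul_nonneg (by linarith : (0 : ℝ) ≤ P) (by linarith : (0 : ℝ) ≤ W)]
  have hMR : (M : ℝ) ≤ 2 * (d + 2) * (P * W) := by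
    have h1 : (M : ℝ) ≤ (K : ℝ) ^ (d + 1 + 1) * M := by
      have h2 : (1 : ℝ) ≤ (K : ℝ) ^ (d + 1 + 1) := one_le_pow₀ hKR
      have h3 : (0 : ℝ) ≤ M := Nat.cast_nonneg _
      nlinarith
    exact h1.trans hKM
  have hPW : 0 ≤ P * W := by positivity
  have hQR : ((d : ℝ) + 1) * (K : ℝ) ^ d * W ≤ (d + 1) * (P * W) := by
    have h1 : (K : ℝ) ^ d ≤ P := pow_le_pow_right₀ hKR (Nat.le_succ d)
    have h2 : (K : ℝ) ^ d * W ≤ P * W := by gcongr
    nlinarith [Nat.cast_nonneg (α := ℝ) d]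
  have hallR : (n : ℝ) ≤ (((range n).filter (fun m => InQ u w (d + 1) m)).card : ℝ) +
      (((range n).filter (fun m => (¬ ∃ f : Fin (d + 1) → Fin K,
        (fun f : Fin (d + 1) → Fin K => ∑ i, u (f i)) f ≤ m ∧
        m ≤ (fun f : Fin (d + 1) → Fin K => ∑ i, w (f i)) f) ∧
        TT b y (d + 2) m ≤ c' * TT b y (d + 1) m)).card : ℝ) +
      (((range n).filter (fun m => c2 ≤ TT b y (d + 1 + 1) m)).card : ℝ) := by
    exact_mod_cast hall
  have hQ' : (((range n).filter (fun m => InQ u w (d + 1) m)).card : ℝ) ≤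
      ((d : ℝ) + 1) * (K : ℝ) ^ d * W := by exact_mod_cast hQ
  push_cast at hlive hbad'
  rw [← hPdef] at hbad'
  have hA : ((d : ℝ) + 1 + 1) * (K : ℝ) ^ (d + 1) * W = (d + 2) * (P * W) := by rw [hPdef]; ring
  have h5 : C1 * (1 + ℓ) * (P + 1) ≤ 2 * C1 * (1 + ℓ) * P := by
    have h6 : 0 ≤ C1 * (1 + ℓ) := by positivity
    nlinarith
  have h7 : (0 : ℝ) ≤ (1 + ℓ) * P := by positivity
  have hfin : (n : ℝ) / 2 ≤ 2 * C1 * (1 + ℓ) * P + (6 * ((d : ℝ) + 2) + C3) * (P * W) := by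
    have h8 : ((d : ℝ) + 1) * (P * W) ≤ (d + 2) * (P * W) := by nlinarith
    rw [hA] at hlive
    linarith
  have h9 : (0 : ℝ) ≤ 2 * (6 * ((d : ℝ) + 2) + C3) * ((1 + ℓ) * P) := by positivity
  have h10 : (0 : ℝ) ≤ 4 * C1 * (P * W) := by positivity
  nlinarith

end

end Pool.Agent.R474.AG
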