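import Pool.Agent.R474.AG.Cov
import Pool.Agent.H820R3.DG.Real

/-!
The covering inequality for real algebraic numbers.
-/

set_option autoImplicit false

open Finset Polynomial

namespace Pool.Agent.R474.AG

open Pool.Agent.H394R2.Ones Pool.Agent.H820R3.DG

section
variable {b : ℕ} {y : ℝ}

theorem cover_y (hb : 2 ≤ b) (hy0 : 0 < y) (hy1 : y < 1) (halg : IsAlgebraic ℚ y)
    (hirr : Irrational y) (d : ℕ) (c : ℕ → ℤ)
    (hP : ∑ k ∈ range (d + 2 + 1), (c k : ℝ) * (1 + y) ^ k = 0) (hc : 0 < c (d + 2)) :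
    ∃ c0 : ℝ, 0 < c0 ∧ ∃ n0 : ℕ, ∀ (n K : ℕ) (u w : Fin K → ℕ), n0 ≤ n → (∀ i, u i ≤ w i) →
      (∀ k, k ≤ n → 1 ≤ xx b y k → ∃ i, u i ≤ k ∧ k ≤ w i) →
      c0 * n ≤ (K : ℝ) ^ (d + 1) * ((∑ j, (w j + 1 - u j) : ℕ) : ℝ) := by
  obtain ⟨C, hC, h⟩ := cover_log hb hy0 hy1 halg hirr d c hP hc
  set η : ℝ := 1 / (2 * C + 2) with hη
  have hη0 : 0 < η := by positivity
  have hη1 : η ≤ 1 := by
    rw [hη, div_le_one (by positivity)]; linarith
  obtain ⟨n1, hn1⟩ := Filter.eventually_atTop.1 (log_small d η hη0)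
  refine ⟨1 / (2 * C), by positivity, max n1 1, fun n K u w hn huw hcov => ?_⟩
  have h1 := h n K u w huw hcov
  have h2 := hn1 n ((le_max_left _ _).trans hn)
  have hnR : (1 : ℝ) ≤ n := by exact_mod_cast (le_max_right n1 1).trans hn
  set W : ℕ := ∑ j, (w j + 1 - u j) with hW
  set ℓ := Real.log ((n : ℝ) + 1) with hℓdef
  have hℓ : 0 ≤ ℓ := Real.log_nonneg (by linarith)
  have hKW : K ≤ W := by
    have h1 : ∑ j : Fin K, 1 ≤ ∑ j, (w j + 1 - u j) := sum_le_sum fun j _ => by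
      have := huw j
      omega
    simpa using h1
  have hKWR : (K : ℝ) ≤ W := by exact_mod_cast hKW
  have hK0 : (0 : ℝ) ≤ K := Nat.cast_nonneg _
  have hP0 : (0 : ℝ) ≤ (K : ℝ) ^ (d + 1) := by positivity
  rw [div_mul_eq_mul_div, one_mul, div_le_iff₀ (by positivity)]
  rcases le_or_gt (1 + ℓ) (W : ℝ) with h3 | h3
  · have h4 : C * (1 + ℓ) * (K : ℝ) ^ (d + 1) ≤ C * ((K : ℝ) ^ (d + 1) * W) := by
      have : (1 + ℓ) * (K : ℝ) ^ (d + 1) ≤ W * (K : ℝ) ^ (d + 1) :=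
        mul_le_mul_of_nonneg_right h3 hP0
      nlinarith
    linarith
  · exfalso
    set s : ℝ := (n : ℝ) ^ ((1 : ℝ) / (d + 2)) with hs
    have hs0 : 0 ≤ s := by positivity
    have hsn : s ^ (d + 2) = n := by
      rw [hs, ← Real.rpow_natCast, ← Real.rpow_mul (by linarith)]
      push_cast
      rw [one_div, inv_mul_cancel₀ (by positivity), Real.rpow_one]
    have h4 : (K : ℝ) ^ (d + 1) ≤ (1 + ℓ) ^ (d + 1) :=
      pow_le_pow_left₀ hK0 (hKWR.trans h3.le) _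
    have h5 : (1 + ℓ) ^ (d + 2) ≤ η * n := by
      calc (1 + ℓ) ^ (d + 2) ≤ (η * s) ^ (d + 2) := pow_le_pow_left₀ (by linarith) h2 _
        _ = η ^ (d + 2) * n := by rw [mul_pow, hsn]
        _ ≤ η * n := by
          have : η ^ (d + 2) ≤ η := by
            calc η ^ (d + 2) ≤ η ^ 1 := pow_le_pow_of_le_one hη0.le hη1 (by omega)
              _ = η := pow_one _
          nlinarith
    have h6 : (1 + ℓ) * (K : ℝ) ^ (d + 1) ≤ (1 + ℓ) ^ (d + 2) := by
      calc (1 + ℓ) * (K : ℝ) ^ (d + 1) ≤ (1 + ℓ) * (1 + ℓ) ^ (d + 1) := by gcongr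
        _ = _ := by ring
    have h7 : (K : ℝ) ^ (d + 1) * W ≤ (1 + ℓ) ^ (d + 2) := by
      calc (K : ℝ) ^ (d + 1) * W ≤ (1 + ℓ) ^ (d + 1) * (1 + ℓ) :=
            mul_le_mul h4 h3.le (by positivity) (by positivity)
        _ = _ := by ring
    have h8 : (n : ℝ) ≤ 2 * C * (η * n) := by nlinarith
    have h9 : 2 * C * (η * n) < n := by
      have : 2 * C * η < 1 := by
        rw [hη, mul_one_div, div_lt_one (by positivity)]
        linarith
      nlinarith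
    linarith

end

/-- the digits of a real number and of its fractional part -/
lemma digit_fract {b : ℕ} (hb : 2 ≤ b) {ξ : ℝ} (k : ℕ) :
    digit b ξ (k + 1) = (x b (Int.fract ξ) (k + 1) : ℤ) := by
  set y : ℝ := Int.fract ξ with hy
  have hξ : ξ = ⌊ξ⌋ + y := (Int.floor_add_fract ξ).symm
  have hy0 : 0 ≤ y := Int.fract_nonneg ξ
  unfold digit
  have h1 : ξ * (b : ℝ) ^ (k + 1) = ((⌊ξ⌋ * (b : ℤ) ^ (k + 1) : ℤ) : ℝ) +
      y * (b : ℝ) ^ (k + 1) := by
    nth_rewrite 1 [hξ]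
    push_cast
    ring
  rw [h1, Int.floor_intCast_add]
  unfold x Pool.Agent.H394R2.Ones.B
  push_cast
  rw [Int.natCast_floor_eq_floor (by positivity)]
  rw [show ⌊ξ⌋ * (b : ℤ) ^ (k + 1) + ⌊y * (b : ℝ) ^ (k + 1)⌋ =
    ⌊y * (b : ℝ) ^ (k + 1)⌋ + (b : ℤ) * (⌊ξ⌋ * (b : ℤ) ^ k) by ring, Int.add_mul_emod_self_left]

/-- the covering theorem for the digit zero -/
theorem cover_real {b : ℕ} (hb : 2 ≤ b) (P : ℤ[X]) (hD : 2 ≤ P.natDegree)
    (hlead : 0 < P.leadingCoeff) {ξ : ℝ} (hirr : Irrational ξ) (hP : aeval ξ P = 0) :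
    ∃ c0 : ℝ, 0 < c0 ∧ ∃ n0 : ℕ, ∀ (n K : ℕ) (u w : ℕ → ℕ), n0 ≤ n → (∀ i < K, u i ≤ w i) →
      (∀ k ∈ Icc 1 n, digit b ξ k ≠ 0 → ∃ i < K, u i ≤ k ∧ k ≤ w i) →
      c0 * n ≤ (K : ℝ) ^ (P.natDegree - 1) * ((∑ i ∈ range K, (w i + 1 - u i) : ℕ) : ℝ) := by
  obtain ⟨d, hd⟩ : ∃ d, P.natDegree = d + 2 := ⟨P.natDegree - 2, by omega⟩
  set y : ℝ := Int.fract ξ with hy
  have hyirr : Irrational y := by
    have : y = ξ - (⌊ξ⌋ : ℤ) := rfl
    rw [this]
    exact hirr.sub_intCast _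
  have hy0 : 0 < y := lt_of_le_of_ne (Int.fract_nonneg ξ) (Ne.symm hyirr.ne_zero)
  have hy1 : y < 1 := Int.fract_lt_one ξ
  set r : ℤ := ⌊ξ⌋ - 1 with hr
  set Q : ℤ[X] := P.comp (X + C r) with hQ
  have hQdeg : Q.natDegree = d + 2 := by
    rw [hQ, natDegree_comp, natDegree_X_add_C, mul_one, hd]
  have hQlead : Q.leadingCoeff = P.leadingCoeff := by
    rw [hQ, leadingCoeff_comp (by rw [natDegree_X_add_C]; norm_num), leadingCoeff_X_add_C,
      one_pow, mul_one]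
  have hQ0 : aeval (1 + y) Q = 0 := by
    rw [hQ, aeval_comp]
    have : aeval (1 + y) (X + C r : ℤ[X]) = ξ := by
      have h1 : (⌊ξ⌋ : ℝ) + y = ξ := Int.floor_add_fract ξ
      have h2 : aeval (1 + y) (X + C r : ℤ[X]) = (1 + y) + (r : ℝ) := by
        rw [map_add, aeval_X, aeval_C]; rfl
      rw [h2, hr]
      push_cast
      linarith
    rw [this]; exact hP
  have hQsum : ∑ k ∈ range (d + 2 + 1), (Q.coeff k : ℝ) * (1 + y) ^ k = 0 := by
    rw [aeval_eq_sum_range, hQdeg] at hQ0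
    simpa [zsmul_eq_mul] using hQ0
  have hcoeff : Q.coeff (d + 2) = P.leadingCoeff := by
    rw [← hQlead]
    unfold leadingCoeff
    rw [hQdeg]
  have hξalg : IsAlgebraic ℚ ξ := by
    have h1 : IsAlgebraic ℤ ξ := ⟨P, by
      intro h
      rw [h] at hlead
      simp at hlead, hP⟩
    exact (IsFractionRing.isAlgebraic_iff ℤ ℚ ℝ).mp h1
  have halg : IsAlgebraic ℚ y := by
    have h1 : y = ξ - algebraMap ℚ ℝ (⌊ξ⌋ : ℚ) := by
      have : y = ξ - (⌊ξ⌋ : ℤ) := rfl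
      rw [this]; simp
    rw [h1]
    exact hξalg.sub (isAlgebraic_algebraMap _)
  obtain ⟨c0, hc0, n0, h⟩ := cover_y hb hy0 hy1 halg hyirr d (fun k => Q.coeff k) hQsum (by
      show 0 < Q.coeff (d + 2)
      rw [hcoeff]; exact hlead)
  obtain ⟨n1, hn1⟩ := exists_nat_gt (1 / c0)
  refine ⟨c0 / 2 ^ (d + 2), by positivity, max n0 n1, fun n K u w hn huw hcov => ?_⟩
  have h1 := h n (K + 1) (Fin.cons 0 (fun i : Fin K => u i)) (Fin.cons 0 (fun i : Fin K => w i))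
    ((le_max_left _ _).trans hn) (by
      intro i
      refine Fin.cases ?_ (fun j => ?_) i
      · simp
      · simpa using huw j j.2) (by
      intro k hk hx
      rcases Nat.eq_zero_or_pos k with h0 | h0
      · exact ⟨0, by simp, by simp [h0]⟩
      · obtain ⟨k', rfl⟩ : ∃ k', k = k' + 1 := ⟨k - 1, by omega⟩
        rw [xx_succ] at hx
        obtain ⟨i, hi, h2, h3⟩ := hcov (k' + 1) (mem_Icc.2 ⟨h0, hk⟩) (by
          rw [digit_fract hb]
          have : (x b (Int.fract ξ) (k' + 1)) ≠ 0 := by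
            rw [← hy]; omega
          exact_mod_cast this)
        exact ⟨Fin.succ ⟨i, hi⟩, by rw [Fin.cons_succ]; exact h2, by rw [Fin.cons_succ]; exact h3⟩)
  rw [Fin.sum_univ_succ] at h1
  simp only [Fin.cons_zero, Fin.cons_succ] at h1
  rw [Fin.sum_univ_eq_sum_range (fun i => w i + 1 - u i) K] at h1
  set W : ℕ := ∑ i ∈ range K, (w i + 1 - u i) with hW
  push_cast at h1
  have hKW : K ≤ W := by
    have h1 : ∑ j ∈ range K, 1 ≤ ∑ j ∈ range K, (w j + 1 - u j) := sum_le_sum fun j hj => by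
      have := huw j (mem_range.1 hj)
      omega
    simpa using h1
  have hnR : 1 < c0 * n := by
    have h2 : 1 / c0 < n := lt_of_lt_of_le hn1 (by exact_mod_cast (le_max_right n0 n1).trans hn)
    rw [div_lt_iff₀ hc0] at h2
    linarith
  have hK1 : 1 ≤ K := by
    by_contra hcon
    have hK0 : K = 0 := by omega
    have hW0 : W = 0 := by rw [hW, hK0]; simp
    rw [hK0, hW0] at h1
    norm_num at h1
    linarith
  have hKR : (1 : ℝ) ≤ K := by exact_mod_cast hK1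
  have hWR : (1 : ℝ) ≤ W := by exact_mod_cast hK1.trans hKW
  have h2 : c0 * n ≤ (2 * (K : ℝ)) ^ (d + 1) * (2 * W) := by
    refine h1.trans ?_
    apply mul_le_mul (pow_le_pow_left₀ (by positivity) (by linarith) _) (by linarith)
      (by positivity) (by positivity)
  rw [div_mul_eq_mul_div, div_le_iff₀ (by positivity), hd]
  have e1 : d + 2 - 1 = d + 1 := by omega
  rw [e1]
  calc c0 * n ≤ (2 * (K : ℝ)) ^ (d + 1) * (2 * W) := h2
    _ = _ := by rw [mul_pow]; ring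

/-- an integer polynomial of the degree of the minimal polynomial -/
lemma exists_int_poly {ξ : ℝ} (halg : IsAlgebraic ℚ ξ) : ∃ P : ℤ[X],
    P.natDegree = (minpoly ℚ ξ).natDegree ∧ P ≠ 0 ∧ aeval ξ P = 0 := by
  set p := minpoly ℚ ξ with hp
  have hp0 : p ≠ 0 := minpoly.ne_zero halg.isIntegral
  obtain ⟨m, hmM, hm⟩ := IsLocalization.integerNormalization_spec (nonZeroDivisors ℤ) p
  set P := IsLocalization.integerNormalization (nonZeroDivisors ℤ) p with hP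
  have hdeg : P.natDegree = p.natDegree := by
    have h1 : (P.map (algebraMap ℤ ℚ)).natDegree = P.natDegree :=
      natDegree_map_eq_of_injective (algebraMap ℤ ℚ).injective_int P
    rw [← h1, hm]
    apply natDegree_smul_of_smul_regular
    have hm0 : m ≠ 0 := nonZeroDivisors.ne_zero hmM
    exact IsSMulRegular.of_ne_zero hm0
  refine ⟨P, hdeg, ?_, ?_⟩
  · intro h0
    rw [h0, natDegree_zero] at hdeg
    have h1 := minpoly.natDegree_pos halg.isIntegral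
    rw [← hp, ← hdeg] at h1
    exact absurd h1 (lt_irrefl 0)
  · exact IsLocalization.integerNormalization_aeval_eq_zero (nonZeroDivisors ℤ) p
      (minpoly.aeval ℚ ξ)

/-- the covering theorem for the digits `0` and `b - 1` -/
theorem cover_alg {b : ℕ} (hb : 2 ≤ b) {ξ : ℝ} (halg : IsAlgebraic ℚ ξ) (hirr : Irrational ξ) :
    ∃ c0 : ℝ, 0 < c0 ∧ ∃ n0 : ℕ, ∀ e : ℤ, (e = 0 ∨ e = b - 1) → ∀ (n K : ℕ) (u w : ℕ → ℕ), n0 ≤ n →
      (∀ i < K, u i ≤ w i) →
      (∀ k ∈ Icc 1 n, digit b ξ k ≠ e → ∃ i < K, u i ≤ k ∧ k ≤ w i) →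
      c0 * n ≤ (K : ℝ) ^ ((minpoly ℚ ξ).natDegree - 1) *
        ((∑ i ∈ range K, (w i + 1 - u i) : ℕ) : ℝ) := by
  obtain ⟨P, hdeg, hP0, hP⟩ := exists_int_poly halg
  have hD : 2 ≤ P.natDegree := by
    rw [hdeg]
    by_contra hcon
    have h1 := minpoly.natDegree_pos halg.isIntegral
    have h2 : (minpoly ℚ ξ).natDegree = 1 := by omega
    obtain ⟨q, hq⟩ := minpoly.natDegree_eq_one_iff.1 h2
    exact hirr ⟨q, hq⟩
  have hl0 : P.leadingCoeff ≠ 0 := leadingCoeff_ne_zero.mpr hP0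
  have key : ∀ (η : ℝ), Irrational η → (∃ R : ℤ[X], R.natDegree = P.natDegree ∧ aeval η R = 0) →
      ∃ c0 : ℝ, 0 < c0 ∧ ∃ n0 : ℕ, ∀ (n K : ℕ) (u w : ℕ → ℕ), n0 ≤ n → (∀ i < K, u i ≤ w i) →
      (∀ k ∈ Icc 1 n, digit b η k ≠ 0 → ∃ i < K, u i ≤ k ∧ k ≤ w i) →
      c0 * n ≤ (K : ℝ) ^ (P.natDegree - 1) * ((∑ i ∈ range K, (w i + 1 - u i) : ℕ) : ℝ) := by
    intro η hη ⟨R, hR1, hR3⟩
    have hR0 : R.leadingCoeff ≠ 0 := by
      rw [leadingCoeff_ne_zero]
      rintro rfl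
      rw [natDegree_zero] at hR1
      omega
    rcases lt_or_gt_of_ne hR0 with h | h
    · have h3 := cover_real hb (-R) (by rw [natDegree_neg, hR1]; exact hD)
        (by rw [leadingCoeff_neg]; omega) hη (by rw [map_neg, hR3, neg_zero])
      rwa [natDegree_neg, hR1] at h3
    · have h3 := cover_real hb R (by rw [hR1]; exact hD) h hη hR3
      rwa [hR1] at h3
  obtain ⟨c1, hc1, n1, h1⟩ := key ξ hirr ⟨P, rfl, hP⟩
  obtain ⟨c2, hc2, n2, h2⟩ := key (-ξ) hirr.neg ⟨P.comp (-X), by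
      rw [natDegree_comp, natDegree_neg, natDegree_X, mul_one], by
      rw [aeval_comp]; simpa using hP⟩
  refine ⟨min c1 c2, lt_min hc1 hc2, max n1 n2, fun e he n K u w hn huw hcov => ?_⟩
  have hn0 : (0 : ℝ) ≤ n := Nat.cast_nonneg _
  rw [← hdeg]
  rcases he with rfl | rfl
  · refine le_trans (mul_le_mul_of_nonneg_right (min_le_left _ _) hn0) ?_
    exact h1 n K u w ((le_max_left _ _).trans hn) huw hcov
  · refine le_trans (mul_le_mul_of_nonneg_right (min_le_right _ _) hn0) ?_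
    refine h2 n K u w ((le_max_right _ _).trans hn) huw fun k hk hne => hcov k hk fun heq => ?_
    rw [digit_neg hb hirr, heq] at hne
    exact hne (by ring)

end Pool.Agent.R474.AG
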