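import Mathlib

/-!
Sums of intervals of integers.
-/

set_option autoImplicit false

open Finset

namespace Pool.Agent.R474.AG

/-- `m` lies in one of the `d`-fold sums of the intervals `[u i, w i]` -/
def InQ {K : ℕ} (u w : Fin K → ℕ) (d m : ℕ) : Prop :=
  ∃ f : Fin d → Fin K, ∑ i, u (f i) ≤ m ∧ m ≤ ∑ i, w (f i)

lemma sum_cons {K : ℕ} (d : ℕ) (F : (Fin (d + 1) → Fin K) → ℕ) :
    ∑ f : Fin (d + 1) → Fin K, F f = ∑ a : Fin K, ∑ f : Fin d → Fin K, F (Fin.cons a f) := by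
  rw [← Fintype.sum_prod_type']
  exact (Fintype.sum_equiv (Fin.consEquiv (fun _ : Fin (d + 1) => Fin K)) _ _ (fun x => rfl)).symm

lemma sum_funs {K : ℕ} (g : Fin K → ℕ) (d : ℕ) :
    ∑ f : Fin (d + 1) → Fin K, ∑ i, g (f i) = (d + 1) * K ^ d * ∑ j, g j := by
  induction d with
  | zero =>
    rw [sum_cons]
    simp
  | succ d ih =>
    rw [sum_cons]
    have h1 : ∀ a : Fin K, ∀ f : Fin (d + 1) → Fin K,
        ∑ i, g ((Fin.cons a f : Fin (d + 1 + 1) → Fin K) i) = g a + ∑ i, g (f i) := by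
      intro a f
      rw [Fin.sum_univ_succ]
      simp
    simp only [h1, sum_add_distrib, ih, sum_const, card_univ, smul_eq_mul, Fintype.card_fin,
      Fintype.card_fun]
    rw [← mul_sum]
    ring

lemma sum_len {K : ℕ} (u w : Fin K → ℕ) (huw : ∀ i, u i ≤ w i) (d M : ℕ) :
    ∑ f : Fin (d + 1) → Fin K, (∑ i, w (f i) + 1 - ∑ i, u (f i) + M) ≤
      (d + 1) * K ^ d * ∑ j, (w j + 1 - u j) + K ^ (d + 1) * M := by
  have h1 : ∀ f : Fin (d + 1) → Fin K, ∑ i, w (f i) + 1 - ∑ i, u (f i) + M =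
      ∑ i, (w (f i) - u (f i)) + (1 + M) := by
    intro f
    have h2 : ∑ i, w (f i) = ∑ i, u (f i) + ∑ i, (w (f i) - u (f i)) := by
      rw [← sum_add_distrib]
      refine sum_congr rfl fun i _ => ?_
      have := huw (f i)
      omega
    omega
  have h3 : ∑ j, (w j + 1 - u j) = ∑ j, (w j - u j) + K := by
    have h4 : ∀ j, w j + 1 - u j = (w j - u j) + 1 := by
      intro j
      have := huw j
      omega
    simp only [h4, sum_add_distrib, sum_const, card_univ, Fintype.card_fin, smul_eq_mul, mul_one]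
  simp only [h1]
  rw [sum_add_distrib, sum_funs (fun j => w j - u j) d, h3]
  simp only [sum_const, card_univ, Fintype.card_fin, smul_eq_mul, Fintype.card_fun]
  have h5 : K ^ (d + 1) ≤ (d + 1) * K ^ d * K := by
    rw [pow_succ, mul_assoc]
    exact Nat.le_mul_of_pos_left _ (by omega)
  calc (d + 1) * K ^ d * ∑ j, (w j - u j) + K ^ (d + 1) * (1 + M)
      = (d + 1) * K ^ d * ∑ j, (w j - u j) + K ^ (d + 1) + K ^ (d + 1) * M := by ring
    _ ≤ (d + 1) * K ^ d * ∑ j, (w j - u j) + (d + 1) * K ^ d * K + K ^ (d + 1) * M := by omega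
    _ = _ := by ring

open Classical in
/-- the number of positions near the sums of the intervals -/
lemma card_near {K : ℕ} (u w : Fin K → ℕ) (huw : ∀ i, u i ≤ w i) (d M n : ℕ) :
    ((range n).filter (fun m => ∃ k, m ≤ k ∧ k ≤ m + M ∧ InQ u w (d + 1) k)).card ≤
      (d + 1) * K ^ d * ∑ j, (w j + 1 - u j) + K ^ (d + 1) * M := by
  refine le_trans ?_ (sum_len u w huw d M)
  have hsub : (range n).filter (fun m => ∃ k, m ≤ k ∧ k ≤ m + M ∧ InQ u w (d + 1) k) ⊆
      (univ : Finset (Fin (d + 1) → Fin K)).biUnion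
        (fun f => Icc (∑ i, u (f i) - M) (∑ i, w (f i))) := by
    intro m hm
    obtain ⟨-, k, hk1, hk2, f, hf1, hf2⟩ := mem_filter.1 hm
    exact mem_biUnion.2 ⟨f, mem_univ _, mem_Icc.2 ⟨by omega, by omega⟩⟩
  refine (card_le_card hsub).trans (card_biUnion_le.trans (sum_le_sum fun f _ => ?_))
  rw [Nat.card_Icc]
  have : ∑ i, u (f i) ≤ ∑ i, w (f i) := sum_le_sum fun i _ => huw _
  omega

open Classical in
lemma card_inQ {K : ℕ} (u w : Fin K → ℕ) (huw : ∀ i, u i ≤ w i) (d n : ℕ) :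
    ((range n).filter (fun m => InQ u w (d + 1) m)).card ≤
      (d + 1) * K ^ d * ∑ j, (w j + 1 - u j) := by
  have h := card_near u w huw d 0 n
  rw [mul_zero, add_zero] at h
  refine le_trans (card_le_card ?_) h
  intro m hm
  obtain ⟨h1, h2⟩ := mem_filter.1 hm
  exact mem_filter.2 ⟨h1, m, le_rfl, le_rfl, h2⟩

end Pool.Agent.R474.AG
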