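import Pool.Agent.R474.AG.Ivs
import Pool.Agent.H820R3.DG.Bad2
import Pool.Agent.H820R3.DG.Win

/-!
Positions with large tail lie near the support of the representation numbers.
-/

set_option autoImplicit false

open Finset

namespace Pool.Agent.R474.AG

open Pool.Agent.H394R2.Ones Pool.Agent.H820R3.DG

lemma supp_inQ {K : ℕ} (u w : Fin K → ℕ) (f : ℕ → ℕ) (n : ℕ)
    (hcov : ∀ k, k ≤ n → 1 ≤ f k → ∃ i, u i ≤ k ∧ k ≤ w i) (d : ℕ) :
    ∀ m, m ≤ n → 1 ≤ rr f d m → InQ u w d m := by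
  induction d with
  | zero =>
    intro m _ h
    have h0 : m = 0 := by
      by_contra hne
      simp [rr, hne] at h
    subst h0
    exact ⟨Fin.elim0, by simp, by simp⟩
  | succ d ih =>
    intro m hm h
    rw [rr_succ] at h
    obtain ⟨p, hp, hne⟩ := exists_ne_zero_of_sum_ne_zero (Nat.one_le_iff_ne_zero.1 h)
    rw [Finset.HasAntidiagonal.mem_antidiagonal] at hp
    have h1 : 1 ≤ f p.1 := by
      by_contra hcon
      exact hne (by rw [show f p.1 = 0 by omega, zero_mul])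
    have h2 : 1 ≤ rr f d p.2 := by
      by_contra hcon
      exact hne (by rw [show rr f d p.2 = 0 by omega, mul_zero])
    obtain ⟨i, hi1, hi2⟩ := hcov p.1 (by omega) h1
    obtain ⟨g, hg1, hg2⟩ := ih p.2 (by omega) h2
    refine ⟨Fin.cons i g, ?_, ?_⟩
    · rw [Fin.sum_univ_succ]
      simp only [Fin.cons_zero, Fin.cons_succ]
      omega
    · rw [Fin.sum_univ_succ]
      simp only [Fin.cons_zero, Fin.cons_succ]
      omega

section
variable {b : ℕ} {y : ℝ}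

open Classical in
lemma live_card (hb : 2 ≤ b) (hy0 : 0 < y) (hy1 : y < 1) (d : ℕ) (c2 : ℝ) (hc2 : 0 < c2)
    (n M : ℕ) (A : ℕ) (hA : ((range n).filter (fun m => ∃ k, m ≤ k ∧ k ≤ m + M ∧ k ≤ n ∧
      1 ≤ rr (xx b y) (d + 1) k)).card ≤ A) :
    (((range n).filter (fun m => c2 ≤ TT b y (d + 1) m)).card : ℝ) ≤
      A + M + (3 ^ (d + 1) + 1) * (KK b y n : ℝ) ^ (d + 1) / ((b : ℝ) ^ M * c2) := by
  have hb1 : (2 : ℝ) ≤ b := by exact_mod_cast hb
  have hb0 : (0 : ℝ) < b := by linarith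
  set F : Finset ℕ := (range n).filter (fun m => m + M < n ∧ c2 ≤ TT b y (d + 1) m ∧
    ∀ k, m ≤ k → k ≤ m + M → rr (xx b y) (d + 1) k = 0) with hF
  have hsub : (range n).filter (fun m => c2 ≤ TT b y (d + 1) m) ⊆
      ((range n).filter (fun m => ∃ k, m ≤ k ∧ k ≤ m + M ∧ k ≤ n ∧
        1 ≤ rr (xx b y) (d + 1) k) ∪ Ico (n - M) n) ∪ F := by
    intro m hm
    obtain ⟨hm1, hm2⟩ := mem_filter.1 hm
    have hm3 := mem_range.1 hm1
    rw [mem_union, mem_union]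
    by_cases h1 : m + M < n
    · by_cases h2 : ∃ k, m ≤ k ∧ k ≤ m + M ∧ k ≤ n ∧ 1 ≤ rr (xx b y) (d + 1) k
      · exact Or.inl (Or.inl (mem_filter.2 ⟨hm1, h2⟩))
      · right
        push Not at h2
        refine mem_filter.2 ⟨hm1, h1, hm2, fun k hk1 hk2 => ?_⟩
        have := h2 k hk1 hk2 (by omega)
        omega
    · exact Or.inl (Or.inr (mem_Ico.2 ⟨by omega, hm3⟩))
  have h1 := (card_le_card hsub).trans ((card_union_le _ _).trans
    (Nat.add_le_add_right (card_union_le _ _) _))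
  rw [Nat.card_Ico] at h1
  have h2 : ((range n).filter (fun m => c2 ≤ TT b y (d + 1) m)).card ≤ A + M + F.card := by
    omega
  have h3 : (F.card : ℝ) * ((b : ℝ) ^ M * c2) ≤ ∑ N ∈ range n, TT b y (d + 1) N := by
    have h4 : ∑ m ∈ F, (b : ℝ) ^ M * c2 ≤ ∑ m ∈ F, TT b y (d + 1) (m + M) := by
      refine sum_le_sum fun m hm => ?_
      obtain ⟨-, h5, h6, h7⟩ := mem_filter.1 hm
      rw [TT_zeros (b := b) (y := y) (d + 1) m M (fun k hk1 hk2 => h7 k (by omega) hk2)]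
      exact mul_le_mul_of_nonneg_left h6 (by positivity)
    rw [sum_const, nsmul_eq_mul] at h4
    refine h4.trans ?_
    rw [← sum_image (s := F) (g := fun m => m + M) (f := fun N => TT b y (d + 1) N)
      (fun a _ c _ h => by simpa using h)]
    refine sum_le_sum_of_subset_of_nonneg ?_ fun N _ _ => TT_nonneg hb hy0 hy1 _ _
    intro N hN
    obtain ⟨m, hm, rfl⟩ := mem_image.1 hN
    exact mem_range.2 (mem_filter.1 hm).2.1
  have h4 : ∑ N ∈ range n, TT b y (d + 1) N ≤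
      (3 ^ (d + 1) + 1) * (KK b y n : ℝ) ^ (d + 1) := by
    have h5 := TT_sum hb hy0 hy1 (d + 1) n
    have h6 := TT_upper hb hy0 hy1 d n
    have h7 : (1 : ℝ) ≤ KK b y n := by exact_mod_cast KK_pos hy0 hy1 n
    have h8 : (KK b y n : ℝ) ^ d ≤ (KK b y n : ℝ) ^ (d + 1) :=
      pow_le_pow_right₀ h7 (Nat.le_succ d)
    have h9 : 0 ≤ ∑ N ∈ range n, TT b y (d + 1) N := sum_nonneg fun N _ => TT_nonneg hb hy0 hy1 _ _
    have h10 : (0 : ℝ) < 3 ^ (d + 1) := by positivity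
    nlinarith
  have hp : 0 < (b : ℝ) ^ M * c2 := by positivity
  have h5 : (F.card : ℝ) ≤ (3 ^ (d + 1) + 1) * (KK b y n : ℝ) ^ (d + 1) / ((b : ℝ) ^ M * c2) := by
    rw [le_div_iff₀ hp]
    exact h3.trans h4
  have h6 : (((range n).filter (fun m => c2 ≤ TT b y (d + 1) m)).card : ℝ) ≤ A + M + F.card := by
    exact_mod_cast h2
  linarith

/-- positions with large quotient of the tails have a large tail -/
lemma good_live (hb : 2 ≤ b) (hy0 : 0 < y) (hy1 : y < 1) (d : ℕ) (c : ℕ → ℤ)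
    (hP : ∑ k ∈ range (d + 2 + 1), (c k : ℝ) * (1 + y) ^ k = 0) (hc : 0 < c (d + 2)) (N : ℕ)
    (h : ¬ TT b y (d + 2) N ≤ (∑ k ∈ range (d + 2), |(c k : ℝ)|) * TT b y (d + 1) N) :
    1 / (c (d + 2) + ∑ k ∈ range (d + 2), |(c k : ℝ)|) ≤ TT b y (d + 2) N := by
  have h1 := ZZ_pos hb hy0 hy1 d c hP hc N h
  have h2 := ZZ_le hb hy0 hy1 d c hP N
  have h3 : (1 : ℝ) ≤ ZZ c (d + 2) (xx b y) b N := by exact_mod_cast h1
  have h4 := TT_mono hb hy0 hy1 (d + 1) N
  have h5 : 0 ≤ ∑ k ∈ range (d + 2), |(c k : ℝ)| := sum_nonneg fun _ _ => abs_nonneg _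
  have h6 : (0 : ℝ) < c (d + 2) := by exact_mod_cast hc
  rw [div_le_iff₀ (by linarith)]
  have h7 : (∑ k ∈ range (d + 2), |(c k : ℝ)|) * TT b y (d + 1) N ≤
      (∑ k ∈ range (d + 2), |(c k : ℝ)|) * TT b y (d + 2) N := mul_le_mul_of_nonneg_left h4 h5
  linarith

end

end Pool.Agent.R474.AG
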